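import Pool.Agent.Helper30.Full.GoalsW

/-!
# Packet W1: the exponents of `X / Ψ_n(g) X` tend to infinity
-/

set_option autoImplicit false

namespace Pool.Agent.Helper45.Full

open Pool.Agent.Helper30.Full Polynomial

universe u

lemma C_dvd_of_map (p : ℕ) (q : ℤ[X]) (h : q.map (Int.castRingHom (ZMod p)) = 0) :
    C (p : ℤ) ∣ q := by
  rw [Polynomial.C_dvd_iff_dvd_coeff]
  intro i
  have h1 := congrArg (fun r => Polynomial.coeff r i) h
  simp only [Polynomial.coeff_map, Polynomial.coeff_zero] at h1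
  exact (ZMod.intCast_zmod_eq_zero_iff_dvd _ _).1 h1

lemma poly_mod (p : ℕ) [hp : Fact p.Prime] (n : ℕ) : ∃ P : ℤ[X],
    ∑ i ∈ Finset.range p, (X + 1 : ℤ[X]) ^ (i * p ^ n) = X ^ (p ^ n * (p - 1)) + C (p : ℤ) * P := by
  have h : C (p : ℤ) ∣ ∑ i ∈ Finset.range p, (X + 1 : ℤ[X]) ^ (i * p ^ n) -
      X ^ (p ^ n * (p - 1)) := by
    apply C_dvd_of_map
    rw [Polynomial.map_sub, sub_eq_zero, Polynomial.map_sum]
    have h1 : ∀ i ∈ Finset.range p, ((X + 1 : ℤ[X]) ^ (i * p ^ n)).map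
        (Int.castRingHom (ZMod p)) = ((X : (ZMod p)[X]) ^ p ^ n + 1) ^ i := by
      intro i _
      rw [Polynomial.map_pow, Polynomial.map_add, Polynomial.map_X, Polynomial.map_one, mul_comm,
        pow_mul, add_pow_char_pow, one_pow]
    rw [Finset.sum_congr rfl h1, Polynomial.map_pow, Polynomial.map_X]
    have h2 := geom_sum_mul ((X : (ZMod p)[X]) ^ p ^ n + 1) p
    rw [add_sub_cancel_right, add_pow_char, one_pow, add_sub_cancel_right] at h2
    have h3 : (X : (ZMod p)[X]) ^ p ^ n ≠ 0 := pow_ne_zero _ Polynomial.X_ne_zero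
    apply mul_right_cancel₀ h3
    rw [h2, ← pow_mul, ← pow_add]
    congr 1
    have hp1 := hp.out.one_le
    obtain ⟨q, hq⟩ := Nat.exists_eq_add_of_le hp1
    rw [hq]
    simp only [add_tsub_cancel_left]
    ring
  obtain ⟨P, hP⟩ := h
  exact ⟨P, by rw [← hP]; ring⟩

section

variable {p : ℕ} [Fact p.Prime] {d : ℕ} {X : Type u} [AddCommGroup X] [TopologicalSpace X]
  (b : Act p d X)

lemma psi_eq (g : Fin d → ℤ_[p]) (n : ℕ) : ∃ P : ℤ[X],
    Psi b g n = b.T g ^ (p ^ n * (p - 1)) + p • aeval (b.T g) P := by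
  obtain ⟨P, hP⟩ := poly_mod p n
  refine ⟨P, ?_⟩
  have h := congrArg (aeval (b.T g)) hP
  rw [map_sum, map_add, map_mul, map_pow, aeval_X, aeval_C, algebraMap_int_eq, eq_intCast,
    Int.cast_natCast, ← nsmul_eq_mul] at h
  rw [← h]
  unfold Psi
  refine Finset.sum_congr rfl fun i _ => ?_
  rw [map_pow, map_add, aeval_X, map_one, ← σ_eq, σ_nsmul]

lemma Tpow_add_apply (g : Fin d → ℤ_[p]) (i j : ℕ) (x : X) :
    (b.T g ^ (i + j)) x = (b.T g ^ i) ((b.T g ^ j) x) := by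
  rw [pow_add]; rfl

lemma psi_comm (g : Fin d → ℤ_[p]) (n c : ℕ) (x : X) :
    (b.T g ^ c) (Psi b g n x) = Psi b g n ((b.T g ^ c) x) := by
  obtain ⟨P, hP⟩ := psi_eq b g n
  have h : Commute (b.T g ^ c) (Psi b g n) := by
    rw [hP]
    refine Commute.add_right ((Commute.refl _).pow_pow _ _) ?_
    refine Commute.smul_right ?_ _
    have h2 : b.T g ^ c = aeval (b.T g) (Polynomial.X ^ c : ℤ[X]) := by
      rw [map_pow, aeval_X]
    rw [h2]
    unfold Commute SemiconjBy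
    rw [← map_mul, ← map_mul, mul_comm]
  exact congrArg (fun f : AddMonoid.End X => f x) h

/-- the iterated condition -/
lemma iter_cond (g : Fin d → ℤ_[p]) (i c : ℕ)
    (h : ∀ x, (∃ y, (b.T g ^ (c + 1)) (p ^ i • x) = p ^ (i + 1) • y) →
      ∃ y, (b.T g ^ c) (p ^ i • x) = p ^ (i + 1) • y) (j : ℕ) :
    ∀ x, (∃ y, (b.T g ^ (c + j)) (p ^ i • x) = p ^ (i + 1) • y) →
      ∃ y, (b.T g ^ c) (p ^ i • x) = p ^ (i + 1) • y := by
  induction j with
  | zero => intro x hx; exact hx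
  | succ j ih =>
    rintro x ⟨y, hy⟩
    apply ih
    have h1 : (b.T g ^ (c + (j + 1))) (p ^ i • x) =
        (b.T g ^ (c + 1)) (p ^ i • (b.T g ^ j) x) := by
      rw [show c + (j + 1) = (c + 1) + j by ring, Tpow_add_apply, map_nsmul (b.T g ^ j)]
    have h2 : (b.T g ^ (c + j)) (p ^ i • x) = (b.T g ^ c) (p ^ i • (b.T g ^ j) x) := by
      rw [Tpow_add_apply, map_nsmul (b.T g ^ j)]
    rw [h2]
    exact h _ ⟨y, by rw [← h1]; exact hy⟩

end

theorem stmtW1 : StmtW1.{u} := by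
  intro p hpf d X _ _ _ _ _ b g hg hb
  have hp : p.Prime := hpf.out
  choose c hc using hb
  intro E
  set C : ℕ → ℕ := fun i => ∑ j ∈ Finset.range i, c j with hC
  refine ⟨C E, fun n hn => ?_⟩
  by_contra hcon
  push Not at hcon
  obtain ⟨P, hP⟩ := psi_eq b g n
  set N : ℕ := p ^ n * (p - 1) with hN
  have hCN : C E < N := by
    have h1 : n < p ^ n := Nat.lt_pow_self hp.one_lt
    have h2 : 1 ≤ p - 1 := Nat.le_sub_one_of_lt hp.one_lt
    calc C E ≤ n := hn
      _ < p ^ n := h1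
      _ = p ^ n * 1 := (mul_one _).symm
      _ ≤ N := Nat.mul_le_mul_left _ h2
  have hPsi : ∀ (i : ℕ) (w : X), Psi b g n (p ^ i • w) =
      (b.T g ^ N) (p ^ i • w) + p ^ (i + 1) • (aeval (b.T g) P) w := by
    intro i w
    have h1 : Psi b g n (p ^ i • w) = (b.T g ^ N) (p ^ i • w) +
        p • (aeval (b.T g) P) (p ^ i • w) := by rw [hP]; rfl
    rw [h1, map_nsmul (aeval (b.T g) P), pow_succ', mul_smul]
  have claim : ∀ i, i ≤ E → ∀ v : X, ∃ w : X, (b.T g ^ C i) (p ^ E • v) = Psi b g n (p ^ i • w) := by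
    intro i
    induction i with
    | zero =>
      intro _ v
      obtain ⟨y, hy⟩ := hcon v
      refine ⟨y, ?_⟩
      have h0 : C 0 = 0 := by simp [hC]
      rw [h0, pow_zero, pow_zero, one_smul, ← hy]; rfl
    | succ i ih =>
      intro hi v
      obtain ⟨w, hw⟩ := ih (by omega) v
      have hle : c i ≤ N := by
        have h1 : c i ≤ C E :=
          Finset.single_le_sum (f := c) (fun _ _ => Nat.zero_le _) (Finset.mem_range.2 hi)
        omega
      have h2 : ∃ y, (b.T g ^ (c i + (N - c i))) (p ^ i • w) = p ^ (i + 1) • y := by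
        rw [Nat.add_sub_cancel' hle]
        refine ⟨p ^ (E - (i + 1)) • (b.T g ^ C i) v - (aeval (b.T g) P) w, ?_⟩
        rw [smul_sub, ← mul_smul, ← pow_add, Nat.add_sub_cancel' hi, ← map_nsmul (b.T g ^ C i),
          hw, hPsi, add_sub_cancel_right]
      obtain ⟨w', hw'⟩ := iter_cond b g i (c i) (hc i) _ w h2
      refine ⟨w', ?_⟩
      have h3 : C (i + 1) = c i + C i := by
        simp only [hC, Finset.sum_range_succ]; ring
      rw [h3, Tpow_add_apply, hw, psi_comm, hw']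
  have fin : ∀ v : X, ∃ w : X, (b.T g ^ C E) (p ^ E • v) =
      (b.T g ^ N) (p ^ E • w) + p ^ (E + 1) • (aeval (b.T g) P) w := by
    intro v
    obtain ⟨w, hw⟩ := claim E le_rfl v
    exact ⟨w, by rw [hw, hPsi]⟩
  -- Nakayama
  let Z : AddSubgroup X := AddMonoidHom.range (nsmulAddMonoidHom (α := X) (p ^ (E + 1)))
  let Y : AddSubgroup X := AddMonoidHom.range ((b.T g ^ C E).comp
    (nsmulAddMonoidHom (α := X) (p ^ E)))
  have hZ : IsClosed (Z : Set X) := by
    have h1 : (Z : Set X) = Set.range fun x : X => p ^ (E + 1) • x := by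
      ext x; rfl
    rw [h1]
    exact (isCompact_range (continuous_const_smul _)).isClosed
  have hZk : ∀ z ∈ Z, b.T g z ∈ Z := by
    rintro _ ⟨x, rfl⟩
    refine ⟨b.T g x, ?_⟩
    show p ^ (E + 1) • b.T g x = b.T g (p ^ (E + 1) • x)
    rw [map_nsmul]
  have hYZ : Y ≤ Z := by
    refine nakayama b g Y Z hZ hZk ?_
    rintro _ ⟨v, rfl⟩
    obtain ⟨w, hw⟩ := fin v
    refine ⟨p ^ (E + 1) • (aeval (b.T g) P) w, ⟨(aeval (b.T g) P) w, rfl⟩,
      (b.T g ^ C E) (p ^ E • (b.T g ^ (N - C E - 1)) w), ⟨(b.T g ^ (N - C E - 1)) w, rfl⟩,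
      0, Y.zero_mem, ?_⟩
    show (b.T g ^ C E) (p ^ E • v) = _
    rw [hw, smul_zero, add_zero]
    have h1 : (b.T g ^ N) (p ^ E • w) =
        b.T g ((b.T g ^ C E) (p ^ E • (b.T g ^ (N - C E - 1)) w)) := by
      rw [← map_nsmul (b.T g ^ (N - C E - 1)), ← Tpow_add_apply]
      have h2 : N = 1 + (C E + (N - C E - 1)) := by omega
      conv_lhs => rw [h2]
      rw [Tpow_add_apply, pow_one]
    rw [h1, add_comm]
  apply hg
  refine ⟨E, C E, fun x => ?_⟩
  obtain ⟨y, hy⟩ := hYZ (show (b.T g ^ C E) (p ^ E • x) ∈ Y from ⟨x, rfl⟩)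
  exact ⟨y, hy.symm⟩

end Pool.Agent.Helper45.Full
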